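import Pool.Agent.N556.CQ.Stm

/-!
# Circumscribed quadrilaterals: the strict inequality for normalised sets

Owner helper556.
-/

set_option autoImplicit false

namespace Pool.Agent.N556.CQ

open MeasureTheory Set

theorem Cov.mono {K : Set P} {s t : ℝ} (h : Cov K s) (hst : s ≤ t) : Cov K t := by
  obtain ⟨a, b, c, d, h1, h2⟩ := h
  exact ⟨a, b, c, d, h1, h2.trans (ENNReal.ofReal_le_ofReal hst)⟩

theorem box_cov (hQ : S_QUAD) {K : Set P} (hB : K ⊆ Box) : Cov K 4 := by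
  obtain ⟨h1, h2⟩ := hQ (-1,-1) (1,-1) (1,1) (-1,1) (by norm_num [cr]) (by norm_num [cr])
    (by norm_num [cr]) (by norm_num [cr]) (by norm_num [cr])
  refine ⟨(-1,-1), (1,-1), (1,1), (-1,1), ?_, ?_⟩
  · intro x hx
    obtain ⟨h3, h4⟩ := hB hx
    rw [abs_le] at h3 h4
    apply h2 <;> simp [cr] <;> linarith
  · refine h1.trans (ENNReal.ofReal_le_ofReal ?_)
    norm_num [cr]

theorem vol_two (hF : S_FAN) {K : Set P} {a b : ℝ} (hx : Convex ℝ K)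
    (ha : |a| ≤ 1) (hb : |b| ≤ 1) (h1 : ((1, a) : P) ∈ K) (h2 : ((-1, a) : P) ∈ K)
    (h3 : ((b, 1) : P) ∈ K) (h4 : ((b, -1) : P) ∈ K) :
    ENNReal.ofReal 2 ≤ volume K := by
  obtain ⟨ha1, ha2⟩ := abs_le.1 ha
  obtain ⟨hb1, hb2⟩ := abs_le.1 hb
  have h := hF K a b (1, a) (-1, a) (-1, a) (1, a) hx ha hb h1 h2 h3 h4 h1 h2 h2 h1
    hb2 le_rfl hb1 le_rfl hb1 le_rfl hb2 le_rfl
  refine le_trans (ENNReal.ofReal_le_ofReal ?_) h
  apply le_of_eq
  simp only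
  ring

theorem num {V W T : ℝ} (hT0 : 0 ≤ T) (hW0 : 2 ≤ W) (hWV : W ≤ V)
    (hlow : Real.sqrt 2 * V ≤ (W ^ 2 - T) / 2) (hup : Real.sqrt 2 * V ≤ 4) :
    V = 2 * Real.sqrt 2 ∧ W = 2 * Real.sqrt 2 ∧ T = 0 := by
  have hs2 : Real.sqrt 2 * Real.sqrt 2 = 2 := Real.mul_self_sqrt (by norm_num)
  have hs0 : 0 < Real.sqrt 2 := Real.sqrt_pos.2 (by norm_num)
  have hVle : V ≤ 2 * Real.sqrt 2 := by
    have : Real.sqrt 2 * V ≤ Real.sqrt 2 * (2 * Real.sqrt 2) := by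
      nlinarith
    exact le_of_mul_le_mul_left this hs0
  have hVge : 2 * Real.sqrt 2 ≤ V := by
    have h5 : V * (2 * Real.sqrt 2) ≤ V * V := by nlinarith
    exact le_of_mul_le_mul_left h5 (by linarith)
  have hVeq : V = 2 * Real.sqrt 2 := le_antisymm hVle hVge
  have hWW : W ^ 2 ≤ 8 := by
    have : W ^ 2 ≤ V ^ 2 := by
      apply pow_le_pow_left₀ (by linarith) hWV
    rw [hVeq] at this
    nlinarith
  have hT8 : 8 ≤ W ^ 2 - T := by
    rw [hVeq] at hlow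
    nlinarith
  have hTz : T = 0 := by linarith
  have hWge : 2 * Real.sqrt 2 ≤ W := by
    by_contra hcon
    push Not at hcon
    nlinarith
  refine ⟨hVeq, le_antisymm (hWV.trans hVle) hWge, hTz⟩

theorem quadr {a b x y h : ℝ} (ha : a < 1) (hb : b < 1) (hx : x ≤ 1) (hy : y ≤ 1)
    (h0 : 0 ≤ h) (he : (1 - a) * x + (1 - b) * y = 1 - a * b + h) : b ≤ x ∧ a ≤ y := by
  constructor
  · by_contra hcon
    push Not at hcon
    nlinarith [mul_pos (sub_pos.2 ha) (sub_pos.2 hcon),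
      mul_nonneg (sub_pos.2 hb).le (sub_nonneg.2 hy)]
  · by_contra hcon
    push Not at hcon
    nlinarith [mul_pos (sub_pos.2 hb) (sub_pos.2 hcon),
      mul_nonneg (sub_pos.2 ha).le (sub_nonneg.2 hx)]

theorem den_pos {a b : ℝ} (ha : |a| < 1) (hb : |b| < 1) :
    0 < 4 * (1 - a ^ 2) * (1 - b ^ 2) := by
  have h1 : 0 < 1 - a ^ 2 := by
    have := (sq_lt_one_iff_abs_lt_one a).2 ha
    linarith
  have h2 : 0 < 1 - b ^ 2 := by
    have := (sq_lt_one_iff_abs_lt_one b).2 hb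
    linarith
  exact mul_pos (mul_pos (by norm_num) h1) h2

/-- one round of the argument -/
theorem round (hF : S_FAN) (hR : S_RQ) {K : Set P} {V a b : ℝ} (hc : IsCompact K)
    (hx : Convex ℝ K) (hB : K ⊆ Box) (hV : volume K = ENNReal.ofReal V) (hV0 : 0 ≤ V)
    (ha : |a| < 1) (hb : |b| < 1) (h1 : ((1, a) : P) ∈ K) (h2 : ((-1, a) : P) ∈ K)
    (h3 : ((b, 1) : P) ∈ K) (h4 : ((b, -1) : P) ∈ K)
    (hK : ∀ s, Cov K s → Real.sqrt 2 * V ≤ s) (hup : Real.sqrt 2 * V ≤ 4) :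
    ∃ s₁ s₂ s₃ s₄ : ℝ, 0 ≤ s₁ ∧ 0 ≤ s₂ ∧ 0 ≤ s₃ ∧ 0 ≤ s₄ ∧
      (∀ x ∈ K, (1 - a) * x.1 + (1 - b) * x.2 ≤ 1 - a * b + s₁) ∧
      (∀ x ∈ K, -(1 - a) * x.1 + (1 + b) * x.2 ≤ 1 + a * b + s₂) ∧
      (∀ x ∈ K, -(1 + a) * x.1 - (1 + b) * x.2 ≤ 1 - a * b + s₃) ∧
      (∀ x ∈ K, (1 + a) * x.1 - (1 - b) * x.2 ≤ 1 + a * b + s₄) ∧
      V = 2 * Real.sqrt 2 ∧ 2 + (s₁ + s₂ + s₃ + s₄) / 2 = 2 * Real.sqrt 2 ∧
      (1 + a) * (1 + b) * s₁ - (1 + a) * (1 - b) * s₂ + (1 - a) * (1 - b) * s₃ -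
        (1 - a) * (1 + b) * s₄ = 0 := by
  have hs2 : Real.sqrt 2 * Real.sqrt 2 = 2 := Real.mul_self_sqrt (by norm_num)
  have hs0 : 0 < Real.sqrt 2 := Real.sqrt_pos.2 (by norm_num)
  obtain ⟨ha1, ha2⟩ := abs_lt.1 ha
  obtain ⟨hb1, hb2⟩ := abs_lt.1 hb
  have hne : K.Nonempty := ⟨_, h1⟩
  obtain ⟨v₁, hv₁, hm₁⟩ := hc.exists_isMaxOn hne
    (f := fun x : P => (1 - a) * x.1 + (1 - b) * x.2) (by fun_prop)
  obtain ⟨v₂, hv₂, hm₂⟩ := hc.exists_isMaxOn hne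
    (f := fun x : P => -(1 - a) * x.1 + (1 + b) * x.2) (by fun_prop)
  obtain ⟨v₃, hv₃, hm₃⟩ := hc.exists_isMaxOn hne
    (f := fun x : P => -(1 + a) * x.1 - (1 + b) * x.2) (by fun_prop)
  obtain ⟨v₄, hv₄, hm₄⟩ := hc.exists_isMaxOn hne
    (f := fun x : P => (1 + a) * x.1 - (1 - b) * x.2) (by fun_prop)
  have hm₁' : ∀ x ∈ K, (1 - a) * x.1 + (1 - b) * x.2 ≤ (1 - a) * v₁.1 + (1 - b) * v₁.2 :=
    fun x hx => hm₁ hx
  have hm₂' : ∀ x ∈ K, -(1 - a) * x.1 + (1 + b) * x.2 ≤ -(1 - a) * v₂.1 + (1 + b) * v₂.2 :=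
    fun x hx => hm₂ hx
  have hm₃' : ∀ x ∈ K, -(1 + a) * x.1 - (1 + b) * x.2 ≤ -(1 + a) * v₃.1 - (1 + b) * v₃.2 :=
    fun x hx => hm₃ hx
  have hm₄' : ∀ x ∈ K, (1 + a) * x.1 - (1 - b) * x.2 ≤ (1 + a) * v₄.1 - (1 - b) * v₄.2 :=
    fun x hx => hm₄ hx
  clear hm₁ hm₂ hm₃ hm₄
  have e1 : 0 ≤ (1 - a) * v₁.1 + (1 - b) * v₁.2 - (1 - a * b) := by
    have := hm₁' _ h1
    simp only at this
    linarith
  have e2 : 0 ≤ -(1 - a) * v₂.1 + (1 + b) * v₂.2 - (1 + a * b) := by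
    have := hm₂' _ h2
    simp only at this
    linarith
  have e3 : 0 ≤ -(1 + a) * v₃.1 - (1 + b) * v₃.2 - (1 - a * b) := by
    have := hm₃' _ h2
    simp only at this
    linarith
  have e4 : 0 ≤ (1 + a) * v₄.1 - (1 - b) * v₄.2 - (1 + a * b) := by
    have := hm₄' _ h1
    simp only at this
    linarith
  have b1 := hB hv₁
  have b2 := hB hv₂
  have b3 := hB hv₃
  have b4 := hB hv₄
  obtain ⟨b11, b12⟩ := b1
  obtain ⟨b21, b22⟩ := b2
  obtain ⟨b31, b32⟩ := b3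
  obtain ⟨b41, b42⟩ := b4
  rw [abs_le] at b11 b12 b21 b22 b31 b32 b41 b42
  obtain ⟨q11, q12⟩ := quadr (a := a) (b := b) (x := v₁.1) (y := v₁.2) ha2 hb2 b11.2 b12.2 e1
    (by ring)
  obtain ⟨q21, q22⟩ := quadr (a := a) (b := -b) (x := -v₂.1) (y := v₂.2) ha2 (by linarith)
    (by linarith [b21.1]) b22.2 e2 (by ring)
  obtain ⟨q31, q32⟩ := quadr (a := -a) (b := -b) (x := -v₃.1) (y := -v₃.2) (by linarith)
    (by linarith) (by linarith [b31.1]) (by linarith [b32.1]) e3 (by ring)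
  obtain ⟨q41, q42⟩ := quadr (a := -a) (b := b) (x := v₄.1) (y := -v₄.2) (by linarith) hb2
    b41.2 (by linarith [b42.1]) e4 (by ring)
  set s₁ := (1 - a) * v₁.1 + (1 - b) * v₁.2 - (1 - a * b) with hs₁
  set s₂ := -(1 - a) * v₂.1 + (1 + b) * v₂.2 - (1 + a * b) with hs₂
  set s₃ := -(1 + a) * v₃.1 - (1 + b) * v₃.2 - (1 - a * b) with hs₃
  set s₄ := (1 + a) * v₄.1 - (1 - b) * v₄.2 - (1 + a * b) with hs₄
  have hfan := hF K a b v₁ v₂ v₃ v₄ hx ha.le hb.le h1 h2 h3 h4 hv₁ hv₂ hv₃ hv₄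
    q11 q12 (by linarith) q22 (by linarith) (by linarith) q41 (by linarith)
  have hfan' : 2 + (s₁ + s₂ + s₃ + s₄) / 2 ≤ V := by
    rw [hV] at hfan
    rw [ENNReal.ofReal_le_ofReal_iff hV0] at hfan
    refine le_trans (le_of_eq ?_) hfan
    rw [hs₁, hs₂, hs₃, hs₄]
    ring
  have hrq := hR K a b s₁ s₂ s₃ s₄ ha hb e1 e2 e3 e4
    (fun x hx => by have := hm₁' x hx; rw [hs₁]; linarith)
    (fun x hx => by have := hm₂' x hx; rw [hs₂]; linarith)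
    (fun x hx => by have := hm₃' x hx; rw [hs₃]; linarith)
    (fun x hx => by have := hm₄' x hx; rw [hs₄]; linarith)
    ⟨v₁, hv₁, by rw [hs₁]; ring⟩ ⟨v₂, hv₂, by rw [hs₂]; ring⟩
    ⟨v₃, hv₃, by rw [hs₃]; ring⟩ ⟨v₄, hv₄, by rw [hs₄]; ring⟩
  have hlow := hK _ hrq
  set Λ := (1 + a) * (1 + b) * s₁ - (1 + a) * (1 - b) * s₂ + (1 - a) * (1 - b) * s₃ -
        (1 - a) * (1 + b) * s₄ with hΛ
  have hden : 0 < 4 * (1 - a ^ 2) * (1 - b ^ 2) := den_pos ha hb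
  set T := Λ ^ 2 / (4 * (1 - a ^ 2) * (1 - b ^ 2)) with hT
  have hT0 : 0 ≤ T := div_nonneg (sq_nonneg _) hden.le
  set W := 2 + (s₁ + s₂ + s₃ + s₄) / 2 with hW
  have hW0 : 2 ≤ W := by
    rw [hW]; linarith
  obtain ⟨hVeq, hWeq, hTz⟩ := num hT0 hW0 hfan' hlow hup
  refine ⟨s₁, s₂, s₃, s₄, e1, e2, e3, e4, ?_, ?_, ?_, ?_, hVeq, ?_, ?_⟩
  · intro x hx; have := hm₁' x hx; rw [hs₁]; linarith
  · intro x hx; have := hm₂' x hx; rw [hs₂]; linarith
  · intro x hx; have := hm₃' x hx; rw [hs₃]; linarith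
  · intro x hx; have := hm₄' x hx; rw [hs₄]; linarith
  · exact hWeq
  · rw [hT, div_eq_zero_iff] at hTz
    rcases hTz with h | h
    · exact pow_eq_zero_iff (two_ne_zero) |>.1 h
    · exact absurd h hden.ne'

/-- a closed subset of full measure of a convex set -/
theorem sub_of_vol {K O : Set P} (hc : IsCompact K) (hx : Convex ℝ K) (h0 : 0 < volume K)
    (hO : IsClosed O) (hOK : O ⊆ K) (hv : volume K ≤ volume O) : K ⊆ O := by
  have hfin : volume K ≠ ⊤ := hc.measure_lt_top.ne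
  have hint : interior K ⊆ O := by
    intro x hxK
    by_contra hxO
    have hU : IsOpen (interior K ∩ Oᶜ) := isOpen_interior.inter hO.isOpen_compl
    have hpos : 0 < volume (interior K ∩ Oᶜ) := hU.measure_pos volume ⟨x, hxK, hxO⟩
    have hdis : Disjoint O (interior K ∩ Oᶜ) :=
      Set.disjoint_left.2 (fun y hy hy' => hy'.2 hy)
    have hun : volume O + volume (interior K ∩ Oᶜ) ≤ volume K := by
      rw [← measure_union hdis hU.measurableSet]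
      apply measure_mono
      apply union_subset hOK
      exact inter_subset_left.trans interior_subset
    have h1 : volume K + volume (interior K ∩ Oᶜ) ≤ volume K :=
      le_trans (add_le_add_left hv _) hun
    have h2 : volume (interior K ∩ Oᶜ) ≤ 0 := by
      have h3 : volume K + volume (interior K ∩ Oᶜ) ≤ volume K + 0 := by rwa [add_zero]
      exact (ENNReal.add_le_add_iff_left hfin).1 h3
    exact absurd hpos (not_lt.2 h2)
  have hne : (interior K).Nonempty := by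
    by_contra hcon
    rw [not_nonempty_iff_eq_empty] at hcon
    have h1 : volume (frontier K) = 0 := hx.addHaar_frontier volume
    have h2 : frontier K = K := by
      rw [hc.isClosed.frontier_eq, hcon, sdiff_empty]
    rw [h2] at h1
    rw [h1] at h0
    exact lt_irrefl _ h0
  have h1 : closure (interior K) = closure K :=
    hx.closure_interior_eq_closure_of_nonempty_interior hne
  calc K ⊆ closure K := subset_closure
    _ = closure (interior K) := h1.symm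
    _ ⊆ O := closure_minimal hint hO

end Pool.Agent.N556.CQ
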