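import Pool.Agent.N556.CQ.Sq
import Pool.Agent.N602.CQ.QUAD
import Pool.Agent.N252.CQ.Fan
import Pool.Agent.N283.CQ.MID
import Pool.Agent.N607.CQ.Rot
import Pool.Agent.N897.CQ.RQ
import Pool.Agent.N216.CQ.NORM
import Pool.Agent.N617.CQ.CPTA
import Pool.Agent.N973.CQ.CPTB
import Pool.Agent.N75.CQ.BDD
import Pool.Agent.N353.CQ.DEG

/-!
# Circumscribed quadrilaterals: the constant is smaller than `√2`

Owner helper556.
-/

set_option autoImplicit false

namespace Pool.Agent.N556.CQ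

open MeasureTheory Set

theorem nrm_two {K : Set P} (hx : Convex ℝ K) (hN : Nrm K) : ENNReal.ofReal 2 ≤ volume K := by
  obtain ⟨hB, ⟨a, b, h1, h2, h3, h4⟩, -⟩ := hN
  exact vol_two Pool.Agent.N252.CQ.fan hx (hB h1).2 (hB h3).1 h1 h2 h3 h4

theorem box_vol : volume Box ≤ ENNReal.ofReal 4 := by
  have h : Box = Icc (-1 : ℝ) 1 ×ˢ Icc (-1 : ℝ) 1 := by
    ext x
    simp only [Box, abs_le, mem_prod, mem_Icc]
    exact Iff.rfl
  rw [h, Measure.volume_eq_prod, Measure.prod_prod]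
  simp only [Real.volume_Icc]
  rw [← ENNReal.ofReal_mul (by norm_num)]
  apply ENNReal.ofReal_le_ofReal
  norm_num

/-- the strict inequality for normalised sets -/
theorem end_ {K : Set P} (hc : IsCompact K) (hx : Convex ℝ K) (hN : Nrm K) : Good K := by
  have hQ : S_QUAD := Pool.Agent.N602.CQ.quad
  have hF : S_FAN := Pool.Agent.N252.CQ.fan
  have hM : S_MID := Pool.Agent.N283.CQ.mid hQ
  have hT : S_ROT := Pool.Agent.N607.CQ.rot hQ
  have hR : S_RQ := Pool.Agent.N897.CQ.rq hQ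
  have hD : S_DEG := Pool.Agent.N353.CQ.deg hQ
  have hs2 : Real.sqrt 2 * Real.sqrt 2 = 2 := Real.mul_self_sqrt (by norm_num)
  have hs0 : 0 < Real.sqrt 2 := Real.sqrt_pos.2 (by norm_num)
  have hs1 : 1 < Real.sqrt 2 := by nlinarith
  by_contra hG
  have hfin : volume K ≠ ⊤ := hc.measure_lt_top.ne
  set V := (volume K).toReal with hVdef
  have hV : volume K = ENNReal.ofReal V := (ENNReal.ofReal_toReal hfin).symm
  have hV0 : 0 ≤ V := ENNReal.toReal_nonneg
  have hV2 : 2 ≤ V := by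
    have := nrm_two hx hN
    rw [hV] at this
    exact (ENNReal.ofReal_le_ofReal_iff hV0).1 this
  have hK : ∀ s, Cov K s → Real.sqrt 2 * V ≤ s := by
    intro s hs
    by_contra hcon
    push Not at hcon
    apply hG
    refine ⟨s, hs, ?_⟩
    rw [hV, ← ENNReal.ofReal_mul hs0.le]
    exact (ENNReal.ofReal_lt_ofReal_iff (by positivity)).2 hcon
  obtain ⟨hB, ⟨a, b, h1, h2, h3, h4⟩, hmax⟩ := hN
  have hup : Real.sqrt 2 * V ≤ 4 := hK 4 (box_cov hQ hB)
  -- non-degeneracy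
  have hnd : ¬ (a = 1 ∨ a = -1 ∨ b = 1 ∨ b = -1) := by
    intro hdeg
    have := hK 2 (hD K a b hB h1 h2 h3 h4 hmax hdeg)
    nlinarith
  push Not at hnd
  obtain ⟨n1, n2, n3, n4⟩ := hnd
  have ha' : |a| ≤ 1 := (hB h1).2
  have hb' : |b| ≤ 1 := (hB h3).1
  have ha : |a| < 1 := by
    rw [abs_le] at ha'
    rw [abs_lt]
    exact ⟨lt_of_le_of_ne ha'.1 (Ne.symm n2), lt_of_le_of_ne ha'.2 n1⟩
  have hb : |b| < 1 := by
    rw [abs_le] at hb'
    rw [abs_lt]
    exact ⟨lt_of_le_of_ne hb'.1 (Ne.symm n4), lt_of_le_of_ne hb'.2 n3⟩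
  obtain ⟨_, _, _, _, -, -, -, -, -, -, -, -, hVeq, -, -⟩ :=
    round hF hR hc hx hB hV hV0 ha hb h1 h2 h3 h4 hK hup
  have h44 : Real.sqrt 2 * V = 4 := by rw [hVeq]; nlinarith
  have hK4 : ∀ s, Cov K s → 4 ≤ s := fun s hs => h44 ▸ hK s hs
  -- the midpoints of the sides
  have hmid : ((1, 0) : P) ∈ K ∧ ((-1, 0) : P) ∈ K ∧ ((0, 1) : P) ∈ K ∧ ((0, -1) : P) ∈ K := by
    by_contra hcon
    have hcon' : ((0, 0) : P) + (1, 0) ∉ K ∨ ((0, 0) : P) - (1, 0) ∉ K ∨
        ((0, 0) : P) + (0, 1) ∉ K ∨ ((0, 0) : P) - (0, 1) ∉ K := by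
      have e1 : ((0, 0) : P) + (1, 0) = (1, 0) := by ext <;> simp
      have e2 : ((0, 0) : P) - (1, 0) = (-1, 0) := by ext <;> simp
      have e3 : ((0, 0) : P) + (0, 1) = (0, 1) := by ext <;> simp
      have e4 : ((0, 0) : P) - (0, 1) = (0, -1) := by ext <;> simp
      rw [e1, e2, e3, e4]
      tauto
    obtain ⟨s, hs, hcov⟩ := hM K (0, 0) (1, 0) (0, 1) hc hx (by simp [cr])
      (by
        intro x hx
        obtain ⟨i1, i2⟩ := hB hx
        constructor
        · simpa [cr] using i1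
        · simpa [cr] using i2)
      hcon'
    have := hK4 s hcov
    simp [cr] at hs
    linarith
  obtain ⟨g1, g2, g3, g4⟩ := hmid
  obtain ⟨s₁, s₂, s₃, s₄, e1, e2, e3, e4, m1, m2, m3, m4, -, hσ, hL⟩ :=
    round hF hR (a := 0) (b := 0) hc hx hB hV hV0 (by simp) (by simp) g1 g2 g3 g4 hK hup
  refine square hF hM hT hc hx hB (hV.trans (by rw [hVeq])) g1 g2 g3 g4 hK4 e1 e2 e3 e4
    ?_ ?_ ?_ ?_ hσ (by linarith)
  · intro x hx; have := m1 x hx; linarith
  · intro x hx; have := m2 x hx; linarith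
  · intro x hx; have := m3 x hx; linarith
  · intro x hx; have := m4 x hx; linarith

theorem good {K : Set P} (hc : IsCompact K) (hx : Convex ℝ K) (h0 : 0 < volume K) : Good K := by
  have hs0 : 0 < Real.sqrt 2 := Real.sqrt_pos.2 (by norm_num)
  obtain ⟨K', δ, hδ, hc', hx', hN, hv, hcov⟩ := Pool.Agent.N216.CQ.norm K hc hx h0
  obtain ⟨s, hs, hlt⟩ := end_ hc' hx' hN
  have e : δ * (s / δ) = s := by field_simp
  refine ⟨s / δ, hcov _ (by rwa [e]), ?_⟩
  have h1 : ENNReal.ofReal δ * ENNReal.ofReal (s / δ) <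
      ENNReal.ofReal δ * (ENNReal.ofReal (Real.sqrt 2) * volume K) := by
    rw [← ENNReal.ofReal_mul hδ.le, e]
    refine lt_of_lt_of_eq hlt ?_
    rw [hv]
    ring
  exact lt_of_mul_lt_mul_left' h1

/-- **Main theorem.** -/
theorem main : ∃ c : ℝ, c < Real.sqrt 2 ∧ ∀ K : Set P, Convex ℝ K → volume K = 1 → Cov K c := by
  obtain ⟨c, hc2, hcpt⟩ := Pool.Agent.N973.CQ.cptb Pool.Agent.N617.CQ.cpta
    (fun K hc hx h0 => good hc hx h0)
  refine ⟨c, hc2, ?_⟩
  intro K hx hv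
  have hbd : Bornology.IsBounded K := Pool.Agent.N75.CQ.BDD.bdd K hx (by rw [hv]; exact one_pos)
    (by rw [hv]; exact ENNReal.one_lt_top)
  have hcl : IsCompact (closure K) := hbd.isCompact_closure
  have hclx : Convex ℝ (closure K) := hx.closure
  have hvc : volume (closure K) = 1 := by
    refine le_antisymm ?_ (hv ▸ measure_mono subset_closure)
    have hfr : volume (frontier K) = 0 := hx.addHaar_frontier volume
    calc volume (closure K) ≤ volume (K ∪ frontier K) :=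
          measure_mono (by rw [← closure_eq_self_union_frontier])
      _ ≤ volume K + volume (frontier K) := measure_union_le _ _
      _ = 1 := by rw [hfr, hv, add_zero]
  obtain ⟨K', δ, hδ, hc', hx', hN, hv', hcov⟩ :=
    Pool.Agent.N216.CQ.norm (closure K) hcl hclx (by rw [hvc]; exact one_pos)
  have h2 : 2 ≤ volume K' := by
    have := nrm_two hx' hN
    simpa using this
  have h3 := hcpt K' hc' hx' hN.1 h2
  have h4 : (volume K').toReal = δ := by
    rw [hv', hvc, mul_one, ENNReal.toReal_ofReal hδ.le]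
  rw [h4, mul_comm] at h3
  obtain ⟨p, q, r, s, i1, i2⟩ := hcov c h3
  exact ⟨p, q, r, s, subset_closure.trans i1, i2⟩

end Pool.Agent.N556.CQ
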