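import Pool.Agent.N556.CQ.End

/-!
# Circumscribed quadrilaterals: the last step for normalised sets

Owner helper556.
-/

set_option autoImplicit false

namespace Pool.Agent.N556.CQ

open MeasureTheory Set

/-- the eight points -/
def Pts (c₁ c₂ r : ℝ) : Set P :=
  {(1, 0), (-1, 0), (0, 1), (0, -1), (c₁ + r, c₂ + r), (c₁ - r, c₂ - r), (c₁ - r, c₂ + r),
    (c₁ + r, c₂ - r)}

theorem pts_finite (c₁ c₂ r : ℝ) : (Pts c₁ c₂ r).Finite := by
  unfold Pts
  exact Set.toFinite _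

theorem rot_set_convex (k u v : ℝ) : Convex ℝ {x : P | u * x.1 ≤ 1 ∧ -1 ≤ u * x.2 ∧
    -1 + k * (v * x.2) ≤ u * x.1 ∧ u * x.2 ≤ 1 - k * (v * x.1)} := by
  intro x hx y hy s t hs ht hst
  obtain ⟨h1, h2, h3, h4⟩ := hx
  obtain ⟨g1, g2, g3, g4⟩ := hy
  have ht' : t = 1 - s := by linarith
  subst ht'
  simp only [mem_ofPred_eq, Prod.fst_add, Prod.smul_fst, smul_eq_mul, Prod.snd_add, Prod.smul_snd]
  refine ⟨?_, ?_, ?_, ?_⟩
  · nlinarith [mul_nonneg hs (sub_nonneg.2 h1), mul_nonneg ht (sub_nonneg.2 g1)]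
  · nlinarith [mul_nonneg hs (sub_nonneg.2 h2), mul_nonneg ht (sub_nonneg.2 g2)]
  · nlinarith [mul_nonneg hs (sub_nonneg.2 h3), mul_nonneg ht (sub_nonneg.2 g3)]
  · nlinarith [mul_nonneg hs (sub_nonneg.2 h4), mul_nonneg ht (sub_nonneg.2 g4)]

theorem rotstep (hT : S_ROT) {K : Set P} {c₁ c₂ r ε : ℝ} (hε : ε = 1 ∨ ε = -1)
    (hr : 0 < r) (hx1 : |c₁| + r ≤ 1) (hx2 : |c₂| + r ≤ 1)
    (hK : K ⊆ convexHull ℝ (Pts c₁ c₂ r))
    (hl : -1 < ε * c₁ - r) (ht : ε * c₂ + r < 1) : ∃ s : ℝ, s < 4 ∧ Cov K s := by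
  set k := min 1 (min (ε * c₁ - r + 1) (1 - ε * c₂ - r)) with hk
  have hk0 : 0 < k := by
    rw [hk]
    refine lt_min one_pos (lt_min ?_ ?_) <;> linarith
  have hk1 : k ≤ 1 := min_le_left _ _
  have hk2 : k ≤ ε * c₁ - r + 1 := (min_le_right _ _).trans (min_le_left _ _)
  have hk3 : k ≤ 1 - ε * c₂ - r := (min_le_right _ _).trans (min_le_right _ _)
  have ha1 := abs_le.1 (show |c₁| ≤ 1 - r by linarith)
  have ha2 := abs_le.1 (show |c₂| ≤ 1 - r by linarith)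
  have hsub : K ⊆ {x : P | ε * x.1 ≤ 1 ∧ -1 ≤ ε * x.2 ∧
    -1 + k * (ε * x.2) ≤ ε * x.1 ∧ ε * x.2 ≤ 1 - k * (ε * x.1)} := by
    refine hK.trans (convexHull_min ?_ (rot_set_convex k ε ε))
    intro x hx
    simp only [Pts, mem_insert_iff, mem_singleton_iff] at hx
    simp only [mem_ofPred_eq]
    rcases hε with rfl | rfl <;> rcases hx with rfl | rfl | rfl | rfl | rfl | rfl | rfl | rfl <;>
      refine ⟨?_, ?_, ?_, ?_⟩ <;> simp only [] <;> nlinarith
  obtain ⟨s, hs, hc⟩ := hT K 0 (ε, 0) (0, ε) k (by rcases hε with rfl | rfl <;> simp [cr]) hk0 hk1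
    (by
      intro x hx
      obtain ⟨h1, h2, h3, h4⟩ := hsub hx
      rcases hε with rfl | rfl <;> simp [cr] at * <;> refine ⟨?_, ?_, ?_, ?_⟩ <;> linarith)
  refine ⟨s, ?_, hc⟩
  rcases hε with rfl | rfl <;> simpa [cr] using hs

theorem square (hF : S_FAN) (hM : S_MID) (hT : S_ROT) {K : Set P} (hc : IsCompact K)
    (hx : Convex ℝ K) (hB : K ⊆ Box) (hV : volume K = ENNReal.ofReal (2 * Real.sqrt 2))
    (h1 : ((1, 0) : P) ∈ K) (h2 : ((-1, 0) : P) ∈ K) (h3 : ((0, 1) : P) ∈ K)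
    (h4 : ((0, -1) : P) ∈ K) (hK : ∀ s, Cov K s → 4 ≤ s) {s₁ s₂ s₃ s₄ : ℝ}
    (e1 : 0 ≤ s₁) (e2 : 0 ≤ s₂) (e3 : 0 ≤ s₃) (e4 : 0 ≤ s₄)
    (m1 : ∀ x ∈ K, x.1 + x.2 ≤ 1 + s₁) (m2 : ∀ x ∈ K, -x.1 + x.2 ≤ 1 + s₂)
    (m3 : ∀ x ∈ K, -x.1 - x.2 ≤ 1 + s₃) (m4 : ∀ x ∈ K, x.1 - x.2 ≤ 1 + s₄)
    (hs : 2 + (s₁ + s₂ + s₃ + s₄) / 2 = 2 * Real.sqrt 2)
    (hL : s₁ - s₂ + s₃ - s₄ = 0) : False := by
  have hs2 : Real.sqrt 2 * Real.sqrt 2 = 2 := Real.mul_self_sqrt (by norm_num)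
  have hs0 : 0 < Real.sqrt 2 := Real.sqrt_pos.2 (by norm_num)
  set r := Real.sqrt 2 / 2 with hr
  have hr2 : r * r = 1 / 2 := by rw [hr]; nlinarith
  have hr0 : 0 < r := by rw [hr]; linarith
  have hr3 : r < 3 / 4 := by nlinarith
  have hr1 : 1 / 2 < r := by nlinarith
  have hsr : Real.sqrt 2 = 2 * r := by rw [hr]; ring
  rw [hsr] at hV hs
  clear_value r
  set c₁ := ((s₁ - s₃) - (s₂ - s₄)) / 4 with hc1
  set c₂ := ((s₁ - s₃) + (s₂ - s₄)) / 4 with hc2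
  have hg : s₁ = c₁ + c₂ + 2 * r - 1 := by rw [hc1, hc2]; linarith
  have hd : s₂ = c₂ - c₁ + 2 * r - 1 := by rw [hc1, hc2]; linarith
  have hg' : s₃ = -(c₁ + c₂) + 2 * r - 1 := by rw [hc1, hc2]; linarith
  have hd' : s₄ = -(c₂ - c₁) + 2 * r - 1 := by rw [hc1, hc2]; linarith
  clear_value c₁ c₂
  subst hg hd hg' hd'
  -- the vertices of the square
  have hcr : cr ((r, r) : P) ((-r, r) : P) = 1 := by simp only [cr]; nlinarith
  have key : ((c₁, c₂) : P) + (r, r) ∈ K ∧ ((c₁, c₂) : P) - (r, r) ∈ K ∧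
      ((c₁, c₂) : P) + (-r, r) ∈ K ∧ ((c₁, c₂) : P) - (-r, r) ∈ K := by
    by_contra hcon
    have hcon' : ((c₁, c₂) : P) + (r, r) ∉ K ∨ ((c₁, c₂) : P) - (r, r) ∉ K ∨
      ((c₁, c₂) : P) + (-r, r) ∉ K ∨ ((c₁, c₂) : P) - (-r, r) ∉ K := by
      tauto
    obtain ⟨s, hs, hcov⟩ := hM K (c₁, c₂) (r, r) (-r, r) hc hx (by rw [hcr]; norm_num)
      (by
        intro x hx
        have i1 := m1 x hx
        have i2 := m2 x hx
        have i3 := m3 x hx
        have i4 := m4 x hx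
        rw [hcr]
        simp only [cr, Prod.fst_sub, Prod.snd_sub]
        constructor
        · rw [abs_le]
          constructor
          · nlinarith [mul_nonneg hr0.le (sub_nonneg.2 i3)]
          · nlinarith [mul_nonneg hr0.le (sub_nonneg.2 i1)]
        · rw [abs_le]
          constructor
          · nlinarith [mul_nonneg hr0.le (sub_nonneg.2 i4)]
          · nlinarith [mul_nonneg hr0.le (sub_nonneg.2 i2)])
      hcon'
    rw [hcr] at hs
    have := hK s hcov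
    linarith
  obtain ⟨k1, k2, k3, k4⟩ := key
  have k1' : ((c₁ + r, c₂ + r) : P) ∈ K := k1
  have k2' : ((c₁ - r, c₂ - r) : P) ∈ K := k2
  have k3' : ((c₁ - r, c₂ + r) : P) ∈ K := by
    have h : ((c₁, c₂) : P) + (-r, r) = (c₁ - r, c₂ + r) := by
      ext <;> simp <;> ring
    rwa [h] at k3
  have k4' : ((c₁ + r, c₂ - r) : P) ∈ K := by
    have h : ((c₁, c₂) : P) - (-r, r) = (c₁ + r, c₂ - r) := by
      ext <;> simp
    rwa [h] at k4
  clear k1 k2 k3 k4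
  have b1 := hB k1'
  have b2 := hB k2'
  obtain ⟨b11, b12⟩ := b1
  obtain ⟨b21, b22⟩ := b2
  simp only at b11 b12 b21 b22
  rw [abs_le] at b11 b12 b21 b22
  have x1 : |c₁| + r ≤ 1 := by
    rcases abs_cases c₁ with ⟨h, _⟩ | ⟨h, _⟩ <;> rw [h] <;> linarith
  have x2 : |c₂| + r ≤ 1 := by
    rcases abs_cases c₂ with ⟨h, _⟩ | ⟨h, _⟩ <;> rw [h] <;> linarith
  -- the hull of the eight points
  set O : Set P := convexHull ℝ (Pts c₁ c₂ r) with hO
  have hOc : IsCompact O := (pts_finite c₁ c₂ r).isCompact_convexHull (𝕜 := ℝ)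
  have hOK : O ⊆ K := by
    apply convexHull_min _ hx
    intro x hx
    simp only [Pts, mem_insert_iff, mem_singleton_iff] at hx
    rcases hx with rfl | rfl | rfl | rfl | rfl | rfl | rfl | rfl <;> assumption
  have hmem : ∀ x ∈ Pts c₁ c₂ r, x ∈ O := fun x hx => subset_convexHull ℝ _ hx
  have hfan := hF O 0 0 (c₁ + r, c₂ + r) (c₁ - r, c₂ + r) (c₁ - r, c₂ - r) (c₁ + r, c₂ - r)
    (convex_convexHull ℝ _) (by simp) (by simp) (hmem _ (by simp [Pts])) (hmem _ (by simp [Pts]))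
    (hmem _ (by simp [Pts])) (hmem _ (by simp [Pts])) (hmem _ (by simp [Pts]))
    (hmem _ (by simp [Pts])) (hmem _ (by simp [Pts])) (hmem _ (by simp [Pts]))
    (by simp only; linarith) (by simp only; linarith) (by simp only; linarith)
    (by simp only; linarith) (by simp only; linarith) (by simp only; linarith)
    (by simp only; linarith) (by simp only; linarith)
  have hvol : volume K ≤ volume O := by
    rw [hV]
    refine le_trans (ENNReal.ofReal_le_ofReal ?_) hfan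
    apply le_of_eq
    simp only
    ring
  have hpos : 0 < volume K := by
    rw [hV]
    simp only [ENNReal.ofReal_pos]
    linarith
  have hKO : K ⊆ O := sub_of_vol hc hx hpos hOc.isClosed hOK hvol
  have hfin : ∃ s : ℝ, s < 4 ∧ Cov K s := by
    by_cases hcase : -1 < c₁ - r ∧ c₂ + r < 1
    · exact rotstep hT (ε := 1) (Or.inl rfl) hr0 x1 x2 hKO (by linarith [hcase.1])
        (by linarith [hcase.2])
    · refine rotstep hT (ε := -1) (Or.inr rfl) hr0 x1 x2 hKO ?_ ?_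
      · by_contra hcon
        apply hcase
        constructor <;> linarith
      · by_contra hcon
        apply hcase
        constructor <;> linarith
  obtain ⟨s, hs4, hcov⟩ := hfin
  have := hK s hcov
  linarith

end Pool.Agent.N556.CQ
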