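import Mathlib

/-!
# Circumscribed quadrilaterals: the constant `√2` is not best possible (statements)

Owner helper556.  Plane: `P = ℝ × ℝ` with its product Lebesgue measure.
-/

set_option autoImplicit false

namespace Pool.Agent.N556.CQ

open MeasureTheory Set

abbrev P := ℝ × ℝ

/-- the cross product -/
def cr (u v : P) : ℝ := u.1 * v.2 - u.2 * v.1

/-- the convex hull of four points -/
def hull (a b c d : P) : Set P := convexHull ℝ {a, b, c, d}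

/-- `K` lies in a (possibly degenerate) quadrilateral of area at most `s` -/
def Cov (K : Set P) (s : ℝ) : Prop :=
  ∃ a b c d : P, K ⊆ hull a b c d ∧ volume (hull a b c d) ≤ ENNReal.ofReal s

/-- the square `[-1, 1]²` -/
def Box : Set P := {x | |x.1| ≤ 1 ∧ |x.2| ≤ 1}

/-- **QUAD.** convex quadrilaterals `a b c d` in counterclockwise order, possibly degenerate -/
def S_QUAD : Prop := ∀ a b c d : P, 0 ≤ cr (b - a) (c - a) → 0 ≤ cr (c - a) (d - a) →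
  0 ≤ cr (b - a) (d - a) → 0 ≤ cr (c - b) (d - b) → 0 < cr (c - a) (d - b) →
    volume (hull a b c d) ≤ ENNReal.ofReal (cr (c - a) (d - b) / 2) ∧
    ∀ x : P, 0 ≤ cr (b - a) (x - a) → 0 ≤ cr (c - b) (x - b) → 0 ≤ cr (d - c) (x - c) →
      0 ≤ cr (a - d) (x - d) → x ∈ hull a b c d

/-- **FAN.** lower bound for the area of a convex set which contains eight points -/
def S_FAN : Prop := ∀ (L : Set P) (a b : ℝ) (v₁ v₂ v₃ v₄ : P), Convex ℝ L → |a| ≤ 1 → |b| ≤ 1 →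
  ((1, a) : P) ∈ L → ((-1, a) : P) ∈ L → ((b, 1) : P) ∈ L → ((b, -1) : P) ∈ L →
  v₁ ∈ L → v₂ ∈ L → v₃ ∈ L → v₄ ∈ L →
  b ≤ v₁.1 → a ≤ v₁.2 → v₂.1 ≤ b → a ≤ v₂.2 → v₃.1 ≤ b → v₃.2 ≤ a → b ≤ v₄.1 → v₄.2 ≤ a →
    ENNReal.ofReal ((((1 - b) * (v₁.2 - a) + (1 - a) * (v₁.1 - b)) +
      ((1 + b) * (v₂.2 - a) + (1 - a) * (b - v₂.1)) +
      ((1 + b) * (a - v₃.2) + (1 + a) * (b - v₃.1)) +
      ((1 - b) * (a - v₄.2) + (1 + a) * (v₄.1 - b))) / 2) ≤ volume L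

/-- **MID.** a compact convex set in the parallelogram `o + [-1,1] e + [-1,1] f` which does not contain
all the four midpoints `o ± e`, `o ± f` of the sides is contained in a quadrilateral of smaller area -/
def S_MID : Prop := ∀ (K : Set P) (o e f : P), IsCompact K → Convex ℝ K → 0 < cr e f →
  (∀ x ∈ K, |cr (x - o) f| ≤ cr e f ∧ |cr e (x - o)| ≤ cr e f) →
  (o + e ∉ K ∨ o - e ∉ K ∨ o + f ∉ K ∨ o - f ∉ K) → ∃ s : ℝ, s < 4 * cr e f ∧ Cov K s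

/-- **ROT.** rotating two adjacent sides of a parallelogram -/
def S_ROT : Prop := ∀ (K : Set P) (o e f : P) (k : ℝ), 0 < cr e f → 0 < k → k ≤ 1 →
  (∀ x ∈ K, cr (x - o) f ≤ cr e f ∧ -cr e f ≤ cr e (x - o) ∧
    -cr e f + k * cr e (x - o) ≤ cr (x - o) f ∧ cr e (x - o) ≤ cr e f - k * cr (x - o) f) →
    ∃ s : ℝ, s < 4 * cr e f ∧ Cov K s

/-- **RQ.** the circumscribed quadrilateral with sides parallel to those of the quadrilateral with the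
vertices `(1, a), (b, 1), (-1, a), (b, -1)` -/
def S_RQ : Prop := ∀ (K : Set P) (a b s₁ s₂ s₃ s₄ : ℝ), |a| < 1 → |b| < 1 →
  0 ≤ s₁ → 0 ≤ s₂ → 0 ≤ s₃ → 0 ≤ s₄ →
  (∀ x ∈ K, (1 - a) * x.1 + (1 - b) * x.2 ≤ 1 - a * b + s₁) →
  (∀ x ∈ K, -(1 - a) * x.1 + (1 + b) * x.2 ≤ 1 + a * b + s₂) →
  (∀ x ∈ K, -(1 + a) * x.1 - (1 + b) * x.2 ≤ 1 - a * b + s₃) →
  (∀ x ∈ K, (1 + a) * x.1 - (1 - b) * x.2 ≤ 1 + a * b + s₄) →
  (∃ x ∈ K, (1 - a) * x.1 + (1 - b) * x.2 = 1 - a * b + s₁) →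
  (∃ x ∈ K, -(1 - a) * x.1 + (1 + b) * x.2 = 1 + a * b + s₂) →
  (∃ x ∈ K, -(1 + a) * x.1 - (1 + b) * x.2 = 1 - a * b + s₃) →
  (∃ x ∈ K, (1 + a) * x.1 - (1 - b) * x.2 = 1 + a * b + s₄) →
    Cov K (((2 + (s₁ + s₂ + s₃ + s₄) / 2) ^ 2 -
      ((1 + a) * (1 + b) * s₁ - (1 + a) * (1 - b) * s₂ + (1 - a) * (1 - b) * s₃ -
        (1 - a) * (1 + b) * s₄) ^ 2 / (4 * (1 - a ^ 2) * (1 - b ^ 2))) / 2)

/-- normalised sets -/
def Nrm (K : Set P) : Prop := K ⊆ Box ∧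
  (∃ a b : ℝ, ((1, a) : P) ∈ K ∧ ((-1, a) : P) ∈ K ∧ ((b, 1) : P) ∈ K ∧ ((b, -1) : P) ∈ K) ∧
  ∀ A ∈ K, ∀ B ∈ K, ∀ C ∈ K, ∀ D ∈ K, cr (A - C) (B - D) ≤ 4

/-- **NORM.** normalisation by an affine map -/
def S_NORM : Prop := ∀ K : Set P, IsCompact K → Convex ℝ K → 0 < volume K →
  ∃ (K' : Set P) (δ : ℝ), 0 < δ ∧ IsCompact K' ∧ Convex ℝ K' ∧ Nrm K' ∧
    volume K' = ENNReal.ofReal δ * volume K ∧ ∀ s : ℝ, Cov K' (δ * s) → Cov K s

/-- the strict inequality for one set -/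
def Good (K : Set P) : Prop := ∃ s : ℝ, Cov K s ∧
  ENNReal.ofReal s < ENNReal.ofReal (Real.sqrt 2) * volume K

/-- **CPT.** compactness -/
def S_CPT : Prop := (∀ K : Set P, IsCompact K → Convex ℝ K → 0 < volume K → Good K) →
  ∃ c : ℝ, c < Real.sqrt 2 ∧ ∀ K : Set P, IsCompact K → Convex ℝ K → K ⊆ Box → 2 ≤ volume K →
    Cov K (c * (volume K).toReal)

/-- **BDD.** convex sets of finite positive area are bounded -/
def S_BDD : Prop := ∀ K : Set P, Convex ℝ K → 0 < volume K → volume K < ⊤ →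
  Bornology.IsBounded K

/-- **DEG.** the maximality of the inscribed quadrilateral in a degenerate situation -/
def S_DEG : Prop := ∀ (K : Set P) (a b : ℝ), K ⊆ Box →
  ((1, a) : P) ∈ K → ((-1, a) : P) ∈ K → ((b, 1) : P) ∈ K → ((b, -1) : P) ∈ K →
  (∀ A ∈ K, ∀ B ∈ K, ∀ C ∈ K, ∀ D ∈ K, cr (A - C) (B - D) ≤ 4) →
  (a = 1 ∨ a = -1 ∨ b = 1 ∨ b = -1) → Cov K 2

end Pool.Agent.N556.CQ
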